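import Pool.Agent.Y179.T7.Smooth
import Pool.Agent.Y160.SL.ClsV

/-!
# Project T8: smoothness
-/

set_option autoImplicit false

open Polynomial

namespace Pool.Agent.Y925.T8

open Pool.Agent.Y160.SL (atZero powT Smooth derivT eqOf IsTowerData Redei IndepMod)
open Pool.Agent.Y179.T7 (coeff_derivT derivT_add derivT_mul derivT_C derivT_X derivative_swap
  derivT_swap derivT_comp smooth_iff unit_mem mem_of_map_zero)

section

variable {k : Type} [Field k]

theorem smooth_swap (f : k[X][X]) (ih : Smooth f) : Smooth (Bivariate.swap f) := by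
  rw [smooth_iff] at ih ⊢
  intro M hM h1 h2 h3
  rw [derivative_swap] at h2
  rw [derivT_swap] at h3
  exact ih (M.comap ((Bivariate.swap : k[X][X] ≃ₐ[k] k[X][X]) : k[X][X] →+* k[X][X]))
    (hM.comap _) h1 h3 h2

theorem smooth_shear (f : k[X][X]) (c : k) (b : k[X]) (hc : c ≠ 0) (ih : Smooth f) :
    Smooth (f.comp (C (C c) * X + C b)) := by
  rw [smooth_iff] at ih ⊢
  intro M hM h1 h2 h3
  rw [derivative_comp] at h2
  have h2' : C (C c) * (derivative f).comp (C (C c) * X + C b) ∈ M := by
    simpa using h2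
  have h4 := unit_mem M c hc _ h2'
  rw [derivT_comp] at h3
  have h5 : (derivT f).comp (C (C c) * X + C b) ∈ M :=
    (Ideal.add_mem_iff_left M (M.mul_mem_left _ h4)).1 h3
  exact ih (M.comap (compRingHom (C (C c) * X + C b))) (hM.comap _) h1 h4 h5

theorem smooth_root (p : ℕ) (hp : p.Prime) (hpk : (p : k) ≠ 0) (f : k[X][X])
    (hsep : (atZero f).Separable) (ih : Smooth f) : Smooth (powT p f) := by
  rw [smooth_iff] at ih ⊢
  intro M hM h1 h2 h3
  have hF : derivative (powT p f) = (derivative f).map (expand k p : k[X] →+* k[X]) := by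
    unfold powT
    rw [derivative_map]
  have hT : derivT (powT p f) = C (C (p : k)) * (C X) ^ (p - 1) *
      (derivT f).map (expand k p : k[X] →+* k[X]) := by
    ext1 n
    have e : (C (C (p : k)) * (C X) ^ (p - 1) : k[X][X]) = C (C (p : k) * X ^ (p - 1)) := by
      simp
    rw [coeff_derivT, e, coeff_C_mul, coeff_map, coeff_derivT]
    unfold powT
    rw [coeff_map]
    show derivative (expand k p (f.coeff n)) = C (p : k) * X ^ (p - 1) *
      expand k p (derivative (f.coeff n))
    rw [derivative_expand]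
    simp only [map_natCast]
    ring
  rw [hT] at h3
  rcases hM.mem_or_mem h3 with h4 | h4
  · rcases hM.mem_or_mem h4 with h5 | h5
    · have h6 : C (C (p : k)) * (1 : k[X][X]) ∈ M := by rwa [mul_one]
      exact hM.ne_top ((Ideal.eq_top_iff_one _).2 (unit_mem M _ hpk _ h6))
    · have hX := hM.mem_of_pow_mem _ h5
      obtain ⟨s, r, hsr⟩ := hsep
      have hz : (powT p f).map (evalRingHom (0 : k)) = atZero f := by
        unfold powT atZero
        rw [map_map]
        congr 1
        ext a
        · simp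
        · simp [hp.ne_zero]
      have hz' : (derivative (powT p f)).map (evalRingHom (0 : k)) = derivative (atZero f) := by
        rw [← derivative_map, hz]
      have hc : ∀ q : k[X], (q.map C).map (evalRingHom (0 : k)) = q := by
        intro q
        rw [map_map]
        have : (evalRingHom (0 : k)).comp C = RingHom.id k := by
          ext a
          simp
        rw [this, map_id]
      have hE : (s.map C * powT p f + r.map C * derivative (powT p f) - 1).map
          (evalRingHom (0 : k)) = 0 := by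
        rw [Polynomial.map_sub, Polynomial.map_add, Polynomial.map_mul, Polynomial.map_mul,
          hz, hz', hc, hc, hsr, Polynomial.map_one, sub_self]
      have h6 := mem_of_map_zero M hX _ hE
      have h7 : s.map C * powT p f + r.map C * derivative (powT p f) ∈ M :=
        M.add_mem (M.mul_mem_left _ h1) (M.mul_mem_left _ h2)
      have h8 := M.sub_mem h7 h6
      rw [sub_sub_cancel] at h8
      exact hM.ne_top ((Ideal.eq_top_iff_one _).2 h8)
  · rw [hF] at h2
    exact ih (M.comap (mapRingHom (expand k p : k[X] →+* k[X]))) (hM.comap _) h1 h2 h4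

theorem smooth_base (p s : ℕ) (hp : p.Prime) (hpk : (p : k) ≠ 0) (g : k[X]) (hg : g.Separable) :
    Smooth (C g + X ^ (p ^ (s + 1)) : k[X][X]) := by
  rw [smooth_iff]
  intro M hM h1 h2 h3
  obtain ⟨a, b, hab⟩ := hg
  have hq : 2 ≤ p ^ (s + 1) := by
    calc 2 ≤ p := hp.two_le
      _ ≤ p ^ (s + 1) := Nat.le_self_pow (Nat.succ_ne_zero s) p
  have e2 : derivative (C g + X ^ (p ^ (s + 1)) : k[X][X]) =
      C (C ((p : k) ^ (s + 1))) * X ^ (p ^ (s + 1) - 1) := by
    rw [derivative_add, derivative_C, zero_add, derivative_X_pow]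
    push_cast
    simp
  have e3 : derivT (C g + X ^ (p ^ (s + 1)) : k[X][X]) = C (derivative g) := by
    have hX : ∀ n : ℕ, derivT (X ^ n : k[X][X]) = 0 := by
      intro n
      induction n with
      | zero =>
        rw [pow_zero, ← C_1, derivT_C]
        simp
      | succ n ih => rw [pow_succ, derivT_mul, ih, derivT_X, zero_mul, mul_zero, add_zero]
    rw [derivT_add, derivT_C, hX, add_zero]
  rw [e2] at h2
  have h4 := unit_mem M _ (pow_ne_zero _ hpk) _ h2
  have h5 : (X : k[X][X]) ∈ M := hM.mem_of_pow_mem _ h4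
  have h6 : (X ^ (p ^ (s + 1)) : k[X][X]) ∈ M := M.pow_mem_of_mem h5 _ (by omega)
  have h7 : (C g : k[X][X]) ∈ M := (Ideal.add_mem_iff_left M h6).1 h1
  rw [e3] at h3
  have h8 : C a * C g + C b * C (derivative g) ∈ M :=
    M.add_mem (M.mul_mem_left _ h7) (M.mul_mem_left _ h3)
  rw [← C_mul, ← C_mul, ← C_add, hab, C_1] at h8
  exact hM.ne_top ((Ideal.eq_top_iff_one _).2 h8)

theorem sep_prod {r : ℕ} (G : Fin (r + 1) → k[X])
    (hG : ∀ j, (G j).Monic ∧ Irreducible (G j) ∧ (G j).Separable) (hinj : Function.Injective G) :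
    (∏ j, G j).Separable := by
  apply separable_prod'
  · intro i _ j _ hij
    rw [(hG i).2.1.coprime_iff_not_dvd]
    intro hd
    apply hij
    apply hinj
    exact eq_of_monic_of_associated (hG i).1 (hG j).1 ((hG i).2.1.associated_of_dvd (hG j).2.1 hd)
  · intro i _
    exact (hG i).2.2

theorem eqOf_swap {r : ℕ} (q : ℕ) (v : Fin (r + 1) → k[X][X]) (T : k[X][X]) :
    eqOf q (fun j => Bivariate.swap (v j)) (Bivariate.swap T) = Bivariate.swap (eqOf q v T) := by
  unfold eqOf
  rw [map_add, map_prod, map_pow]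

theorem eqOf_shear {r : ℕ} (q : ℕ) (v : Fin (r + 1) → k[X][X]) (T a : k[X][X]) :
    eqOf q (fun j => (v j).comp a) (T.comp a) = (eqOf q v T).comp a := by
  unfold eqOf
  simp only [← coe_compRingHom_apply]
  rw [map_add, map_prod, map_pow]

theorem eqOf_root {r : ℕ} (p q : ℕ) (v : Fin (r + 1) → k[X][X]) (T : k[X][X]) :
    eqOf q (fun j => powT p (v j)) (powT p T) = powT p (eqOf q v T) := by
  unfold eqOf powT
  rw [Polynomial.map_add, Polynomial.map_prod, Polynomial.map_pow]

theorem smooth8 (p q s r : ℕ) (v : Fin (r + 1) → k[X][X]) (T : k[X][X]) (hp : p.Prime)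
    (hq : q = p ^ (s + 1)) (hpk : (p : k) ≠ 0) (h : IsTowerData p q r v T) :
    Smooth (eqOf q v T) := by
  induction h with
  | base G hG hinj _ _ =>
    have e : eqOf q (fun j => C (G j)) (X : k[X][X]) = C (∏ j, G j) + X ^ (p ^ (s + 1)) := by
      unfold eqOf
      rw [hq, map_prod]
    rw [e]
    exact smooth_base p s hp hpk _ (sep_prod G hG hinj)
  | swap v T _ ih =>
    rw [eqOf_swap]
    exact smooth_swap _ ih
  | shear v T c b hc _ ih =>
    rw [eqOf_shear]
    exact smooth_shear _ c b hc ih
  | root v T _ hsep _ _ _ _ ih =>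
    rw [eqOf_root]
    exact smooth_root p hp hpk _ hsep ih

end

end Pool.Agent.Y925.T8
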