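import Pool.Agent.Y160.T8.Stm
import Pool.Agent.Y925.T8.SmC

/-!
# Project T8: smoothness
-/

set_option autoImplicit false

namespace Pool.Agent.Y925.T8

theorem st_smooth8 : Pool.Agent.Y160.T8.St_smooth :=
  fun p q s r _ _ v T hp hq hpk h => smooth8 p q s r v T hp hq hpk h

end Pool.Agent.Y925.T8
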